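import Pool.Agent.H174.GM.Stmts2

set_option autoImplicit false
set_option linter.unusedSectionVars false

/-!
# Project GM (helper174), statement DM: change one sign in the Magog integrand
-/

namespace Pool.Agent.H860.GM174.DM

open Finset Pool.Agent.H174.GM

/-! ## Splitting products over pairs -/

section prods

variable {K : Type} [Field K] {k : ℕ}

/-- product over the pairs in `S` -/
def WW (h : K → K → K) (S : Finset (Fin k)) (X : Fin k → K) : K :=
  ∏ a ∈ S, ∏ b ∈ S, if a < b then h (X a) (X b) else 1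

/-- the sign of moving `j` to the front -/
def sgn (K : Type) [Field K] {k : ℕ} (S : Finset (Fin k)) (j : Fin k) : K :=
  ∏ b ∈ S, if b < j then (-1 : K) else 1

theorem sgn_sq (S : Finset (Fin k)) (j : Fin k) : sgn K S j * sgn K S j = 1 := by
  unfold sgn
  rw [← prod_mul_distrib]
  refine prod_eq_one fun b _ => ?_
  split_ifs <;> norm_num

theorem WW_pairs (h : K → K → K) (X : Fin k → K) :
    ∏ p ∈ pairs k, h (X p.1) (X p.2) = WW h univ X := by
  unfold pairs WW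
  rw [prod_filter, Fintype.prod_prod_type]

theorem WW_insert {h : K → K → K} (hh : ∀ x y, h x y = -h y x) {S : Finset (Fin k)} {j : Fin k}
    (hj : j ∉ S) (X : Fin k → K) :
    WW h (insert j S) X = sgn K S j * (∏ b ∈ S, h (X j) (X b)) * WW h S X := by
  have e1 : WW h (insert j S) X = (∏ b ∈ S, if j < b then h (X j) (X b) else 1) *
      ((∏ b ∈ S, if b < j then h (X b) (X j) else 1) * WW h S X) := by
    unfold WW
    rw [prod_insert hj, prod_insert hj, if_neg (lt_irrefl j), one_mul]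
    congr 1
    rw [← prod_mul_distrib]
    refine prod_congr rfl fun a _ => ?_
    rw [prod_insert hj]
  rw [e1, ← mul_assoc]
  congr 1
  unfold sgn
  rw [← prod_mul_distrib, ← prod_mul_distrib]
  refine prod_congr rfl fun b hb => ?_
  have hbj : b ≠ j := fun h => hj (h ▸ hb)
  rcases lt_or_gt_of_ne hbj with h1 | h1
  · rw [if_neg (not_lt.2 h1.le), if_pos h1, if_pos h1, hh (X j) (X b)]
    ring
  · rw [if_pos h1, if_neg (not_lt.2 h1.le), if_neg (not_lt.2 h1.le)]
    ring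

theorem WW_congr (h : K → K → K) (S : Finset (Fin k)) {X X' : Fin k → K}
    (hX : ∀ a ∈ S, X a = X' a) : WW h S X = WW h S X' := by
  unfold WW
  refine prod_congr rfl fun a ha => prod_congr rfl fun b hb => ?_
  rw [hX a ha, hX b hb]

/-- the factor of `gg` -/
def hg (x y : K) : K := (y - x) * (1 - x * y)⁻¹

/-- the factor of `db` -/
def hd (x y : K) : K := (x - y) * (1 - x - y)

theorem hg_anti (x y : K) : hg x y = -hg y x := by
  unfold hg
  rw [mul_comm y x]
  ring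

theorem hd_anti (x y : K) : hd x y = -hd y x := by
  unfold hd
  ring

theorem hd_uu (x y : K) : hd x y = uu x - uu y := by
  unfold hd uu
  ring

/-- the part of `gg` for the variables in `S` -/
def G0 (S : Finset (Fin k)) (X : Fin k → K) : K := (∏ r ∈ S, (1 - X r)⁻¹) * WW hg S X

/-- the part of `db` for the variables in `S` -/
def D0 (S : Finset (Fin k)) (X : Fin k → K) : K := (∏ r ∈ S, (1 - 2 * X r)) * WW hd S X

theorem gg_eq (X : Fin k → K) : gg X = G0 univ X := by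
  unfold gg G0
  congr 1
  exact WW_pairs hg X

theorem db_eq (X : Fin k → K) : db X = D0 univ X := by
  unfold db D0
  congr 1
  exact WW_pairs hd X

theorem G0_insert {S : Finset (Fin k)} {j : Fin k} (hj : j ∉ S) (X : Fin k → K) :
    G0 (insert j S) X = sgn K S j * ((1 - X j)⁻¹ *
      ∏ r ∈ S, ((X r - X j) * (1 - X j * X r)⁻¹)) * G0 S X := by
  unfold G0
  rw [WW_insert hg_anti hj, prod_insert hj]
  unfold hg
  ring

theorem D0_insert {S : Finset (Fin k)} {j : Fin k} (hj : j ∉ S) (X : Fin k → K) :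
    D0 (insert j S) X = sgn K S j * ((1 - 2 * X j) *
      ∏ r ∈ S, (uu (X j) - uu (X r))) * D0 S X := by
  unfold D0
  rw [WW_insert hd_anti hj, prod_insert hj]
  simp only [hd_uu]
  ring

theorem G0_congr (S : Finset (Fin k)) {X X' : Fin k → K} (hX : ∀ a ∈ S, X a = X' a) :
    G0 S X = G0 S X' := by
  unfold G0
  rw [WW_congr hg S hX]
  congr 1
  exact prod_congr rfl fun r hr => by rw [hX r hr]

theorem mem_G0 (L : Subfield K) (S : Finset (Fin k)) {X : Fin k → K} (hX : ∀ a ∈ S, X a ∈ L) :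
    G0 S X ∈ L := by
  unfold G0 WW hg
  refine mul_mem (prod_mem fun r hr => inv_mem (sub_mem (one_mem _) (hX r hr)))
    (prod_mem fun a ha => prod_mem fun b hb => ?_)
  split_ifs
  · exact mul_mem (sub_mem (hX b hb) (hX a ha))
      (inv_mem (sub_mem (one_mem _) (mul_mem (hX a ha) (hX b hb))))
  · exact one_mem _

theorem mem_D0 (L : Subfield K) (S : Finset (Fin k)) {X : Fin k → K} (hX : ∀ a ∈ S, X a ∈ L) :
    D0 S X ∈ L := by
  have h2 : (2 : K) ∈ L := ofNat_mem L 2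
  unfold D0 WW hd
  refine mul_mem (prod_mem fun r hr => sub_mem (one_mem _) (mul_mem h2 (hX r hr)))
    (prod_mem fun a ha => prod_mem fun b hb => ?_)
  split_ifs
  · exact mul_mem (sub_mem (hX a ha) (hX b hb))
      (sub_mem (sub_mem (one_mem _) (hX a ha)) (hX b hb))
  · exact one_mem _

end prods

/-! ## The function `A` -/

section AA

variable {R : Type*} [CommRing R] {k : ℕ}

/-- three of the four factors of `d2` -/
def gr (T Y : R) : R := (1 - (1 - T) * Y) * (1 - T * (1 - Y)) * (1 - (1 - T) * (1 - Y))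

theorem d2_fac (T Y : R) : d2 (uu T) (uu Y) = (1 - T * Y) * gr T Y := by
  unfold d2 uu gr
  ring

/-- `uu T ∏ d2 gg` without the constant factor -/
def AA (S : Finset (Fin k)) (Y : Fin k → R) (T : R) : R := T * ∏ r ∈ S, ((Y r - T) * gr T (Y r))

theorem map_gr {R' : Type*} [CommRing R'] (f : R →+* R') (T Y : R) :
    f (gr T Y) = gr (f T) (f Y) := by
  unfold gr
  simp only [map_mul, map_sub, map_one]

theorem map_AA {R' : Type*} [CommRing R'] (f : R →+* R') (S : Finset (Fin k)) (Y : Fin k → R)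
    (T : R) : f (AA S Y T) = AA S (fun r => f (Y r)) (f T) := by
  unfold AA
  rw [map_mul, map_prod]
  congr 1
  refine prod_congr rfl fun r _ => ?_
  rw [map_mul, map_sub, map_gr]

theorem map_uu {R' : Type*} [CommRing R'] (f : R →+* R') (T : R) : f (uu T) = uu (f T) := by
  unfold uu
  rw [map_mul, map_sub, map_one]

theorem mem_AA (L : Subring R) (S : Finset (Fin k)) {Y : Fin k → R} {T : R}
    (hY : ∀ r ∈ S, Y r ∈ L) (hT : T ∈ L) : AA S Y T ∈ L := by
  unfold AA gr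
  have h1 : (1 : R) ∈ L := one_mem _
  refine mul_mem hT (prod_mem fun r hr => ?_)
  exact mul_mem (sub_mem (hY r hr) hT) (mul_mem (mul_mem
    (sub_mem h1 (mul_mem (sub_mem h1 hT) (hY r hr)))
    (sub_mem h1 (mul_mem hT (sub_mem h1 (hY r hr)))))
    (sub_mem h1 (mul_mem (sub_mem h1 hT) (sub_mem h1 (hY r hr)))))

end AA

section field

variable {K : Type} [Field K] {k : ℕ}

/-- the factor of `gg` for one variable -/
theorem AA_div (S : Finset (Fin k)) (X Y : Fin k → K) (T : K) (hT : T ≠ 0)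
    (hg : ∀ r ∈ S, gr T (Y r) ≠ 0) (hu : ∀ r ∈ S, uu (Y r) = uu (X r)) :
    AA S Y T / (uu T * ∏ r ∈ S, d2 (uu T) (uu (X r))) =
      (1 - T)⁻¹ * ∏ r ∈ S, ((Y r - T) * (1 - T * Y r)⁻¹) := by
  unfold AA
  rw [mul_div_mul_comm, ← prod_div_distrib]
  congr 1
  · unfold uu
    rw [div_mul_eq_div_div, div_self hT, one_div]
  · refine prod_congr rfl fun r hr => ?_
    rw [← hu r hr, d2_fac, mul_div_mul_right _ _ (hg r hr), div_eq_mul_inv]

/-- the scalar identity -/
theorem scalar (z a : K) (N : ℕ) (haz : a * z = 1) (hz : z ≠ 0) (hz1 : 1 - z ≠ 0)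
    (h2 : 2 * z - 1 ≠ 0) (h3 : 1 - z + z ^ 2 ≠ 0) :
    (uu z ^ N)⁻¹ * (1 - z)⁻¹ * (uu a - uu z) * (a * ((z - a) * gr a z)) /
      ((1 - 3 * uu z + 2 * uu a * uu z ^ 2) * uu a ^ (N + 1)) =
      (-1) ^ (N + 1) * ((1 + z ^ 3) * (1 + z) * (2 - z)) * (z ^ N * (z⁻¹) ^ 4) *
        ((1 - z) ^ (2 * N))⁻¹ := by
  have ha : a = z⁻¹ := eq_inv_of_mul_eq_one_left haz
  have hua : uu a = -((1 - z) * (z⁻¹) ^ 2) := by
    unfold uu
    rw [ha]
    field_simp
    ring
  have hua0 : uu a ≠ 0 := by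
    rw [hua]
    exact neg_ne_zero.2 (mul_ne_zero hz1 (pow_ne_zero _ (inv_ne_zero hz)))
  have huz0 : uu z ≠ 0 := mul_ne_zero hz hz1
  have e1 : (uu z * uu a) = -((1 - z) ^ 2 * z⁻¹) := by
    rw [hua]
    unfold uu
    field_simp
  have e2 : (uu z ^ N)⁻¹ * (uu a ^ N)⁻¹ = (-1) ^ N * (z ^ N * ((1 - z) ^ (2 * N))⁻¹) := by
    rw [← mul_inv, ← mul_pow, e1, neg_pow, mul_pow, ← pow_mul, mul_inv, mul_inv, inv_pow, inv_inv]
    have e3 : ((-1 : K) ^ N)⁻¹ = (-1) ^ N := by
      rw [← inv_pow]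
      norm_num
    rw [e3]
    ring
  have e4 : (1 - z)⁻¹ * (uu a - uu z) * (a * ((z - a) * gr a z)) /
      ((1 - 3 * uu z + 2 * uu a * uu z ^ 2) * uu a) =
      -((1 + z ^ 3) * (1 + z) * (2 - z)) * (z⁻¹) ^ 4 := by
    have e5 : 1 - 3 * uu z + 2 * uu a * uu z ^ 2 = (2 * z - 1) * (1 - z + z ^ 2) := by
      rw [hua]
      unfold uu
      field_simp
      ring
    have e6 : gr a z = (2 - z) * ((2 * z - 1) * (1 - z + z ^ 2)) * (z⁻¹) ^ 2 := by
      rw [ha]
      unfold gr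
      field_simp
      ring
    have e7 : uu a - uu z = -((1 - z) * (1 + z ^ 3) * (z⁻¹) ^ 2) := by
      rw [hua]
      unfold uu
      field_simp
      ring
    have e8 : a * (z - a) = -((1 - z) * (1 + z) * (z⁻¹) ^ 2) := by
      rw [ha]
      field_simp
      ring
    rw [e5, e7, ← mul_assoc a, e8, e6, hua]
    have h2' : z * 2 - 1 ≠ 0 := by rwa [mul_comm]
    field_simp
  calc (uu z ^ N)⁻¹ * (1 - z)⁻¹ * (uu a - uu z) * (a * ((z - a) * gr a z)) /
      ((1 - 3 * uu z + 2 * uu a * uu z ^ 2) * uu a ^ (N + 1))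
      = ((uu z ^ N)⁻¹ * (uu a ^ N)⁻¹) * ((1 - z)⁻¹ * (uu a - uu z) * (a * ((z - a) * gr a z)) /
      ((1 - 3 * uu z + 2 * uu a * uu z ^ 2) * uu a)) := by
        rw [pow_succ (uu a) N]
        simp only [div_eq_mul_inv, mul_inv]
        ring
    _ = _ := by
        rw [e2, e4, pow_succ (-1 : K) N]
        ring

/-- the main computation at the node `a = z⁻¹` -/
theorem node (X Y : Fin k → K) (S : Finset (Fin k)) (q : Fin k) (hq : q ∉ S) (z a : K) (N : ℕ)
    (haz : a * z = 1) (hYq : Y q = z) (huq : uu (X q) = uu z)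
    (hu : ∀ r ∈ S, uu (Y r) = uu (X r)) (hz : z ≠ 0) (hz1 : 1 - z ≠ 0)
    (h2 : 2 * z - 1 ≠ 0) (h3 : 1 - z + z ^ 2 ≠ 0) (h4 : 1 - 2 * a ≠ 0)
    (h5 : ∀ r ∈ S, gr a (Y r) ≠ 0) (h6 : ∀ r ∈ S, 1 - a * Y r ≠ 0)
    (h7 : ∀ r ∈ S, 1 - z * Y r ≠ 0) :
    ((∏ r ∈ insert q S, uu (X r) ^ N)⁻¹ * D0 (insert q S) X * G0 (insert q S) Y) *
      ((1 - 2 * a) * ∏ r ∈ insert q S, (uu a - uu (X r))) * AA (insert q S) Y a /
      ((1 - 2 * a) * (1 - 3 * uu (X q) + 2 * uu a * uu (X q) ^ 2) * uu a ^ (N + 1) *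
        ∏ r ∈ S, d2 (uu a) (uu (X r))) =
      ((∏ r ∈ S, uu (X r) ^ N)⁻¹ * D0 S X * G0 S Y) * ((-1) ^ (N + 1) * (-1) ^ S.card) *
      ((1 - 2 * X q) * ((1 + z ^ 3) * (1 + z) * (2 - z)) *
        ∏ r ∈ S, ((uu (X q) - uu (X r)) * ((1 - z) + z ^ 2 * uu (X r)))) *
      (z ^ N * (z⁻¹) ^ (4 + 2 * S.card)) * ((1 - z) ^ (2 * N))⁻¹ := by
  have ha : a = z⁻¹ := eq_inv_of_mul_eq_one_left haz
  have p1 : (∏ r ∈ S, ((Y r - z) * (1 - z * Y r)⁻¹)) * (∏ r ∈ S, ((Y r - a) * gr a (Y r))) =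
      ∏ r ∈ S, d2 (uu a) (uu (X r)) := by
    rw [← prod_mul_distrib]
    refine prod_congr rfl fun r hr => ?_
    rw [← hu r hr, d2_fac]
    have e1 : (Y r - z) * (Y r - a) = (1 - z * Y r) * (1 - a * Y r) := by
      linear_combination (1 - Y r ^ 2) * haz
    calc (Y r - z) * (1 - z * Y r)⁻¹ * ((Y r - a) * gr a (Y r))
        = ((Y r - z) * (Y r - a)) * (1 - z * Y r)⁻¹ * gr a (Y r) := by ring
      _ = (1 - z * Y r) * (1 - a * Y r) * (1 - z * Y r)⁻¹ * gr a (Y r) := by rw [e1]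
      _ = (1 - a * Y r) * gr a (Y r) := by
          rw [mul_comm (1 - z * Y r) (1 - a * Y r), mul_assoc (1 - a * Y r),
            mul_inv_cancel₀ (h7 r hr), mul_one]
  have p2 : (∏ r ∈ S, d2 (uu a) (uu (X r))) ≠ 0 := by
    refine prod_ne_zero_iff.2 fun r hr => ?_
    rw [← hu r hr, d2_fac]
    exact mul_ne_zero (h6 r hr) (h5 r hr)
  have p3 : (∏ r ∈ S, (uu a - uu (X r))) = (-1) ^ S.card * (z⁻¹) ^ (2 * S.card) *
      ∏ r ∈ S, ((1 - z) + z ^ 2 * uu (X r)) := by
    have e1 : ∀ r ∈ S, uu a - uu (X r) = (-1 * (z⁻¹) ^ 2) * ((1 - z) + z ^ 2 * uu (X r)) := by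
      intro r _
      rw [ha]
      unfold uu
      field_simp
      ring
    rw [prod_congr rfl e1, prod_mul_distrib, prod_const, mul_pow, ← pow_mul]
  have p4 := scalar z a N haz hz hz1 h2 h3
  rw [D0_insert hq, G0_insert hq, prod_insert hq, prod_insert hq, p3]
  have p5 : AA (insert q S) Y a = a * ((z - a) * gr a z) * ∏ r ∈ S, ((Y r - a) * gr a (Y r)) := by
    unfold AA
    rw [prod_insert hq, hYq]
    ring
  rw [p5, hYq, huq, prod_mul_distrib (f := fun r => uu z - uu (X r)), pow_add z⁻¹ 4]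
  set P2 := ∏ r ∈ S, d2 (uu a) (uu (X r)) with hP2
  set PA := ∏ r ∈ S, ((Y r - z) * (1 - z * Y r)⁻¹) with hPA
  set PB := ∏ r ∈ S, ((Y r - a) * gr a (Y r)) with hPB
  set PD := ∏ r ∈ S, (uu z - uu (X r)) with hPD
  set PE := ∏ r ∈ S, ((1 - z) + z ^ 2 * uu (X r)) with hPE
  set s := sgn K S q with hs
  have hss : s * s = 1 := sgn_sq S q
  have hP : PA * PB * P2⁻¹ = 1 := by
    rw [p1, mul_inv_cancel₀ p2]
  have h44 : (1 - 2 * a) * (1 - 2 * a)⁻¹ = 1 := mul_inv_cancel₀ h4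
  calc (uu z ^ N * ∏ r ∈ S, uu (X r) ^ N)⁻¹ * (s * ((1 - 2 * X q) * PD) * D0 S X) *
        (s * ((1 - z)⁻¹ * PA) * G0 S Y) * ((1 - 2 * a) *
        ((uu a - uu z) * ((-1) ^ S.card * z⁻¹ ^ (2 * S.card) * PE))) *
        (a * ((z - a) * gr a z) * PB) /
        ((1 - 2 * a) * (1 - 3 * uu z + 2 * uu a * uu z ^ 2) * uu a ^ (N + 1) * P2)
      = (s * s) * (PA * PB * P2⁻¹) * ((1 - 2 * a) * (1 - 2 * a)⁻¹) *
        (((∏ r ∈ S, uu (X r) ^ N)⁻¹ * D0 S X * G0 S Y) * (-1) ^ S.card *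
          (1 - 2 * X q) * (PD * PE) * z⁻¹ ^ (2 * S.card)) *
        ((uu z ^ N)⁻¹ * (1 - z)⁻¹ * (uu a - uu z) * (a * ((z - a) * gr a z)) /
          ((1 - 3 * uu z + 2 * uu a * uu z ^ 2) * uu a ^ (N + 1))) := by
        simp only [div_eq_mul_inv, mul_inv]
        ring
    _ = _ := by
        rw [hss, hP, h44, p4]
        ring

end field

/-! ## The polynomial `P` -/

section poly

open Polynomial

variable {K : Type} [Field K] {k : ℕ}

/-- the polynomial -/
noncomputable def PP (S : Finset (Fin k)) (κ : K) (u Y : Fin k → K) : K[X] :=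
  C κ * ((1 - 2 * X) * ∏ r ∈ S, (uu (X : K[X]) - C (u r))) *
    (AA S (fun r => C (Y r)) X + AA S (fun r => C (Y r)) (1 - X))

theorem PP_hom {R' : Type} [CommRing R'] (f : K[X] →+* R') (S : Finset (Fin k)) (κ : K)
    (u Y : Fin k → K) : f (PP S κ u Y) =
      f (C κ) * ((1 - 2 * f X) * ∏ r ∈ S, (uu (f X) - f (C (u r)))) *
    (AA S (fun r => f (C (Y r))) (f X) + AA S (fun r => f (C (Y r))) (1 - f X)) := by
  unfold PP
  rw [map_mul, map_mul, map_mul, map_add, map_AA, map_AA, map_prod, map_sub, map_sub, map_one,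
    map_mul, map_ofNat]
  congr 3
  refine Finset.prod_congr rfl fun r _ => ?_
  rw [map_sub, map_uu]

theorem PP_eval (S : Finset (Fin k)) (κ : K) (u Y : Fin k → K) (T : K) :
    (PP S κ u Y).eval T = κ * ((1 - 2 * T) * ∏ r ∈ S, (uu T - u r)) *
      (AA S Y T + AA S Y (1 - T)) := by
  have h := PP_hom (evalRingHom T) S κ u Y
  simp only [coe_evalRingHom, eval_C, eval_X] at h
  exact h

theorem PP_comp (S : Finset (Fin k)) (κ : K) (u Y : Fin k → K) :
    (PP S κ u Y).comp (1 - X) = -PP S κ u Y := by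
  have h := PP_hom (compRingHom (1 - X : K[X])) S κ u Y
  simp only [coe_compRingHom_apply, C_comp, X_comp] at h
  rw [h]
  unfold PP
  have e1 : (1 : K[X]) - (1 - X) = X := by ring
  have e2 : uu (1 - X : K[X]) = uu X := by
    unfold uu
    ring
  rw [e1, e2]
  ring

theorem PP_coeff (L : Subfield K) (S : Finset (Fin k)) {κ : K} {u Y : Fin k → K} (hκ : κ ∈ L)
    (hu : ∀ r ∈ S, u r ∈ L) (hY : ∀ r ∈ S, Y r ∈ L) (n : ℕ) : (PP S κ u Y).coeff n ∈ L := by
  have hC : ∀ c ∈ L, (C c : K[X]) ∈ liftsRing L.subtype := by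
    intro c hc
    exact (lifts_iff_liftsRing _ _).1 (C_mem_lifts L.subtype ⟨c, hc⟩)
  have hX : (X : K[X]) ∈ liftsRing L.subtype :=
    (lifts_iff_liftsRing _ _).1 (X_mem_lifts L.subtype)
  have h1 : (1 : K[X]) ∈ liftsRing L.subtype := one_mem _
  have h2 : (2 : K[X]) ∈ liftsRing L.subtype := ofNat_mem _ 2
  have hP : PP S κ u Y ∈ liftsRing L.subtype := by
    unfold PP
    refine mul_mem (mul_mem (hC κ hκ) (mul_mem (sub_mem h1 (mul_mem h2 hX))
      (prod_mem fun r hr => sub_mem (mul_mem hX (sub_mem h1 hX)) (hC _ (hu r hr))))) ?_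
    exact add_mem (mem_AA _ S (fun r hr => hC _ (hY r hr)) hX)
      (mem_AA _ S (fun r hr => hC _ (hY r hr)) (sub_mem h1 hX))
  rw [← lifts_iff_liftsRing, lifts_iff_coeff_lifts] at hP
  obtain ⟨y, hy⟩ := hP n
  rw [← hy]
  exact y.2

theorem AA_deg (S : Finset (Fin k)) (Y : Fin k → K) (T : K[X]) (hT : T.natDegree ≤ 1) :
    (AA S (fun r => C (Y r)) T).natDegree ≤ 1 + S.card * 4 := by
  unfold AA
  refine natDegree_mul_le_of_le hT ?_
  refine (natDegree_prod_le _ _).trans ?_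
  rw [← smul_eq_mul, ← sum_const]
  refine sum_le_sum fun r _ => ?_
  have h1 : (1 : K[X]).natDegree ≤ 0 := natDegree_one.le
  have hc : (C (Y r) : K[X]).natDegree ≤ 0 := (natDegree_C _).le
  have hT' : (1 - T).natDegree ≤ 1 := (natDegree_sub_le_of_le h1 hT).trans (by simp)
  have hc' : (1 - C (Y r) : K[X]).natDegree ≤ 0 := (natDegree_sub_le_of_le h1 hc).trans (by simp)
  have e0 : (C (Y r) - T).natDegree ≤ 1 := (natDegree_sub_le_of_le hc hT).trans (by simp)
  have e1 : (1 - (1 - T) * C (Y r)).natDegree ≤ 1 :=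
    (natDegree_sub_le_of_le h1 (natDegree_mul_le_of_le hT' hc)).trans (by simp)
  have e2 : (1 - T * (1 - C (Y r))).natDegree ≤ 1 :=
    (natDegree_sub_le_of_le h1 (natDegree_mul_le_of_le hT hc')).trans (by simp)
  have e3 : (1 - (1 - T) * (1 - C (Y r))).natDegree ≤ 1 :=
    (natDegree_sub_le_of_le h1 (natDegree_mul_le_of_le hT' hc')).trans (by simp)
  unfold gr
  exact (natDegree_mul_le_of_le e0 (natDegree_mul_le_of_le (natDegree_mul_le_of_le e1 e2) e3))

theorem PP_deg (S : Finset (Fin k)) (κ : K) (u Y : Fin k → K) :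
    (PP S κ u Y).natDegree ≤ 2 + S.card * 6 := by
  have h1 : (1 : K[X]).natDegree ≤ 0 := natDegree_one.le
  have hX : (X : K[X]).natDegree ≤ 1 := natDegree_X_le
  have h2 : (2 : K[X]).natDegree ≤ 0 := (natDegree_ofNat 2).le
  have hX' : (1 - X : K[X]).natDegree ≤ 1 := (natDegree_sub_le_of_le h1 hX).trans (by simp)
  have e1 : (1 - 2 * X : K[X]).natDegree ≤ 1 :=
    (natDegree_sub_le_of_le h1 (natDegree_mul_le_of_le h2 hX)).trans (by simp)
  have e2 : (∏ r ∈ S, (uu (X : K[X]) - C (u r))).natDegree ≤ S.card * 2 := by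
    refine (natDegree_prod_le _ _).trans ?_
    rw [← smul_eq_mul, ← sum_const]
    refine sum_le_sum fun r _ => ?_
    unfold uu
    exact (natDegree_sub_le_of_le (natDegree_mul_le_of_le hX hX') (natDegree_C _).le).trans
      (by simp)
  have e3 : (AA S (fun r => C (Y r)) X + AA S (fun r => C (Y r)) (1 - X)).natDegree ≤
      1 + S.card * 4 :=
    (natDegree_add_le_of_le (AA_deg S Y X hX) (AA_deg S Y (1 - X) hX')).trans (by simp)
  unfold PP
  refine (natDegree_mul_le_of_le (natDegree_mul_le_of_le (natDegree_C κ).le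
    (natDegree_mul_le_of_le e1 e2)) e3).trans ?_
  omega

end poly

/-! ## The field `E k` -/

section ek

variable {k : ℕ}

/-- the subfield of the elements which do not involve `x_j` -/
def LF (h7 : S_XF) (j : Fin k) : Subfield (E k) where
  carrier := {f | Free j f}
  mul_mem' := fun {a b} ha hb => ((h7 k j).2.2.2.2.2.2.1 a b ha hb).2
  one_mem' := by
    have h := (h7 k j).2.2.2.2.2.1 1
    rwa [map_one] at h
  add_mem' := fun {a b} ha hb => ((h7 k j).2.2.2.2.2.2.1 a b ha hb).1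
  zero_mem' := by
    have h := (h7 k j).2.2.2.2.2.1 0
    rwa [map_zero] at h
  neg_mem' := fun {a} ha => ((h7 k j).2.2.2.2.2.2.2 a ha).1
  inv_mem' := fun a ha => ((h7 k j).2.2.2.2.2.2.2 a ha).2

theorem mem_LF (h7 : S_XF) (j : Fin k) (f : E k) : f ∈ LF h7 j ↔ Free j f := Iff.rfl

theorem xx_mem (h7 : S_XF) {j i : Fin k} (h : i ≠ j) : xx i ∈ LF h7 j := (h7 k j).2.2.2.1 i h

theorem xx_not_mem (h7 : S_XF) (j : Fin k) : xx j ∉ LF h7 j := by
  intro h
  obtain ⟨hl, -⟩ := (h7 k j).1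
  have h2 := h.2 _ hl
  rw [ofLex_toLex, Pi.single_eq_same] at h2
  omega

/-- `z` is `x_q` or `1 - x_q` -/
def IsZ (q : Fin k) (z : E k) : Prop := z = xx q ∨ z = 1 - xx q

theorem IsZ.uu {q : Fin k} {z : E k} (h : IsZ q z) :
    Pool.Agent.H174.GM.uu z = Pool.Agent.H174.GM.uu (xx q) := by
  rcases h with h | h
  · rw [h]
  · rw [h]
    unfold Pool.Agent.H174.GM.uu
    ring

theorem IsZ.mem {q : Fin k} {z : E k} (h : IsZ q z) (h7 : S_XF) {r : Fin k} (hr : q ≠ r) :
    z ∈ LF h7 r := by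
  rcases h with h | h
  · rw [h]
    exact xx_mem h7 hr
  · rw [h]
    exact sub_mem (one_mem _) (xx_mem h7 hr)

theorem IsZ.not_mem {q : Fin k} {z : E k} (h : IsZ q z) (h7 : S_XF) : z ∉ LF h7 q := by
  intro hz
  apply xx_not_mem h7 q
  rcases h with h | h
  · rwa [← h]
  · have e : xx q = 1 - z := by
      rw [h]
      ring
    rw [e]
    exact sub_mem (one_mem _) hz

theorem ne_lin (h7 : S_XF) {r : Fin k} {A B Y : E k} (hA : A ∈ LF h7 r) (hB : B ∈ LF h7 r)
    (hB0 : B ≠ 0) (hY : IsZ r Y) : A + B * Y ≠ 0 := by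
  intro h
  apply hY.not_mem h7
  have e : Y = -A * B⁻¹ := by
    rw [eq_mul_inv_iff_mul_eq₀ hB0]
    linear_combination h
  rw [e]
  exact mul_mem (neg_mem hA) (inv_mem hB)

theorem gr_ne (h7 : S_XF) {r : Fin k} {T Y : E k} (hT : T ∈ LF h7 r) (hT0 : T ≠ 0)
    (hT1 : 1 - T ≠ 0) (hY : IsZ r Y) : gr T Y ≠ 0 := by
  have h1 : (1 : E k) ∈ LF h7 r := one_mem _
  have e1 := ne_lin h7 h1 (neg_mem (sub_mem h1 hT)) (neg_ne_zero.2 hT1) hY
  have e2 := ne_lin h7 (sub_mem h1 hT) hT hT0 hY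
  have e3 := ne_lin h7 hT (sub_mem h1 hT) hT1 hY
  unfold gr
  refine mul_ne_zero (mul_ne_zero ?_ ?_) ?_
  · intro h
    apply e1
    linear_combination h
  · intro h
    apply e2
    linear_combination h
  · intro h
    apply e3
    linear_combination h

theorem one_ne (h7 : S_XF) {r : Fin k} {T Y : E k} (hT : T ∈ LF h7 r) (hT0 : T ≠ 0)
    (hY : IsZ r Y) : 1 - T * Y ≠ 0 := by
  have h1 : (1 : E k) ∈ LF h7 r := one_mem _
  have e1 := ne_lin h7 h1 (neg_mem hT) (neg_ne_zero.2 hT0) hY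
  intro h
  apply e1
  linear_combination h

theorem z_ne (h7 : S_XF) {q : Fin k} {z : E k} (h : IsZ q z) : z ≠ 0 := by
  intro h0
  apply h.not_mem h7
  rw [h0]
  exact zero_mem _

theorem z_ne1 (h7 : S_XF) {q : Fin k} {z : E k} (h : IsZ q z) : 1 - z ≠ 0 := by
  intro h0
  apply h.not_mem h7
  rw [← sub_eq_zero.1 h0]
  exact one_mem _

theorem z_ne2 (h7 : S_XF) {q : Fin k} {z : E k} (h : IsZ q z) : 2 * z - 1 ≠ 0 := by
  intro h0
  apply h.not_mem h7
  have e : z = 2⁻¹ := by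
    refine eq_inv_of_mul_eq_one_left ?_
    linear_combination h0
  rw [e]
  exact inv_mem (ofNat_mem _ 2)

theorem z_ne3 (h7 : S_XF) {q : Fin k} {z : E k} (h : IsZ q z) : 1 - 2 * z⁻¹ ≠ 0 := by
  intro h0
  apply h.not_mem h7
  have hz := z_ne h7 h
  have e : z = 2 := by
    have h1 : z * (1 - 2 * z⁻¹) = z - 2 := by
      rw [mul_sub, mul_one, mul_left_comm, mul_inv_cancel₀ hz, mul_one]
    rw [h0, mul_zero] at h1
    linear_combination -h1
  rw [e]
  exact ofNat_mem _ 2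

theorem z_ne4 (h4 : S_EH1) (h7 : S_XF) {q : Fin k} {z : E k} (h : IsZ q z) :
    1 - z + z ^ 2 ≠ 0 := by
  intro h0
  have e1 : Pool.Agent.H174.GM.uu (xx q) = (1 : E k) := by
    rw [← h.uu]
    unfold Pool.Agent.H174.GM.uu
    linear_combination -h0
  have h2 : Ge q (1 + 0) (xx q * (1 - xx q)) :=
    (h4 k q 1 0 (xx q) (1 - xx q)).1 (h7 k q).2.1 ((h7 k q).2.2.2.2.1 q).2.1
  have e2 : xx q * (1 - xx q) = (1 : E k) := e1
  rw [e2, add_zero] at h2
  have h3 := h2 0 (by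
    rw [HahnSeries.coeff_one, if_pos rfl]
    exact one_ne_zero)
  have h5 : (ofLex (0 : Ex k)) q = 0 := rfl
  rw [h5] at h3
  omega

/-! ### bounds for the exponents -/

theorem Ge.mul (h4 : S_EH1) {j : Fin k} {a b : ℤ} {f g : E k} (hf : Ge j a f) (hg : Ge j b g) :
    Ge j (a + b) (f * g) := (h4 k j a b f g).1 hf hg

theorem Le.mul (h4 : S_EH1) {j : Fin k} {a b : ℤ} {f g : E k} (hf : Le j a f) (hg : Le j b g) :
    Le j (a + b) (f * g) := (h4 k j a b f g).2.1 hf hg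

theorem Le.mono (h4 : S_EH1) {j : Fin k} {a b : ℤ} {f : E k} (hf : Le j a f) (h : a ≤ b) :
    Le j b f := (h4 k j a b f f).2.2.2.2.2.2.2.1 hf h

theorem Le.add (h4 : S_EH1) {j : Fin k} {a : ℤ} {f g : E k} (hf : Le j a f) (hg : Le j a g) :
    Le j a (f + g) := (h4 k j a a f g).2.2.2.1 hf hg

theorem Ge.add (h4 : S_EH1) {j : Fin k} {a : ℤ} {f g : E k} (hf : Ge j a f) (hg : Ge j a g) :
    Ge j a (f + g) := (h4 k j a a f g).2.2.1 hf hg

theorem Le.sub (h4 : S_EH1) {j : Fin k} {a : ℤ} {f g : E k} (hf : Le j a f) (hg : Le j a g) :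
    Le j a (f - g) := by
  rw [sub_eq_add_neg]
  exact Le.add h4 hf ((h4 k j a a g g).2.2.2.2.2.1 hg)

theorem Ge.sub (h4 : S_EH1) {j : Fin k} {a : ℤ} {f g : E k} (hf : Ge j a f) (hg : Ge j a g) :
    Ge j a (f - g) := by
  rw [sub_eq_add_neg]
  exact Ge.add h4 hf ((h4 k j a a g g).2.2.2.2.1 hg)

theorem Le.prod (h4 : S_EH1) (h7 : S_XF) {j : Fin k} {c : ℤ} (S : Finset (Fin k))
    {f : Fin k → E k} (hf : ∀ r ∈ S, Le j c (f r)) : Le j (c * S.card) (∏ r ∈ S, f r) := by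
  classical
  induction S using Finset.induction_on with
  | empty =>
    rw [prod_empty, card_empty, Nat.cast_zero, mul_zero]
    exact ((mem_LF h7 j 1).1 (one_mem _)).2
  | insert a S ha ih =>
    rw [prod_insert ha, card_insert_of_notMem ha]
    refine Le.mono h4 (Le.mul h4 (hf a (mem_insert_self a S))
      (ih fun r hr => hf r (mem_insert_of_mem hr))) (le_of_eq ?_)
    push_cast
    ring

theorem Ge.prod (h4 : S_EH1) (h7 : S_XF) {j : Fin k} (S : Finset (Fin k))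
    {f : Fin k → E k} (hf : ∀ r ∈ S, Ge j 0 (f r)) : Ge j 0 (∏ r ∈ S, f r) := by
  classical
  induction S using Finset.induction_on with
  | empty =>
    rw [prod_empty]
    exact ((mem_LF h7 j 1).1 (one_mem _)).1
  | insert a S ha ih =>
    rw [prod_insert ha]
    have h := Ge.mul h4 (hf a (mem_insert_self a S)) (ih fun r hr => hf r (mem_insert_of_mem hr))
    rwa [add_zero] at h

theorem Le.pow (h4 : S_EH1) (h7 : S_XF) {j : Fin k} {c : ℤ} {f : E k} (hf : Le j c f) (m : ℕ) :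
    Le j (c * m) (f ^ m) := by
  induction m with
  | zero =>
    rw [pow_zero, Nat.cast_zero, mul_zero]
    exact ((mem_LF h7 j 1).1 (one_mem _)).2
  | succ m ih =>
    rw [pow_succ]
    refine Le.mono h4 (Le.mul h4 ih hf) (le_of_eq ?_)
    push_cast
    ring

theorem Ge.pow (h4 : S_EH1) (h7 : S_XF) {j : Fin k} {f : E k} (hf : Ge j 0 f) (m : ℕ) :
    Ge j 0 (f ^ m) := by
  induction m with
  | zero =>
    rw [pow_zero]
    exact ((mem_LF h7 j 1).1 (one_mem _)).1
  | succ m ih =>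
    rw [pow_succ]
    have h := Ge.mul h4 ih hf
    rwa [add_zero] at h

/-- the constant -/
noncomputable def kap (S : Finset (Fin k)) (Y : Fin k → E k) (N : ℕ) : E k :=
  (∏ r ∈ S, uu (xx (k := k) r) ^ N)⁻¹ * D0 S (xx (k := k)) * G0 S Y

theorem uu_mem (h7 : S_XF) {q r : Fin k} (h : r ≠ q) : uu (xx r) ∈ LF h7 q :=
  mul_mem (xx_mem h7 h) (sub_mem (one_mem _) (xx_mem h7 h))

theorem kap_mem (h7 : S_XF) (S : Finset (Fin k)) {Y : Fin k → E k} (N : ℕ) {q : Fin k}
    (hS : q ∉ S) (hY : ∀ r, IsZ r (Y r)) : kap S Y N ∈ LF h7 q := by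
  have hne : ∀ r ∈ S, r ≠ q := fun r hr h => hS (h ▸ hr)
  unfold kap
  exact mul_mem (mul_mem (inv_mem (prod_mem fun r hr => pow_mem (uu_mem h7 (hne r hr)) N))
    (mem_D0 _ S fun r hr => xx_mem h7 (hne r hr)))
    (mem_G0 _ S fun r hr => (hY r).mem h7 (hne r hr))

theorem card_two {j q : Fin k} (hq : q ≠ j) :
    (univ.filter fun r : Fin k => r ≠ j ∧ r ≠ q).card + 2 = k := by
  have e : insert j (insert q (univ.filter fun r : Fin k => r ≠ j ∧ r ≠ q)) = univ := by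
    ext r
    simp only [mem_insert, mem_filter, mem_univ, true_and, iff_true]
    by_cases h1 : r = j
    · exact Or.inl h1
    · by_cases h2 : r = q
      · exact Or.inr (Or.inl h2)
      · exact Or.inr (Or.inr ⟨h1, h2⟩)
  have h := congrArg Finset.card e
  rw [card_insert_of_notMem, card_insert_of_notMem, card_univ, Fintype.card_fin] at h
  · exact h
  · simp
  · simp [hq.symm]

theorem insert_q {j q : Fin k} (hq : q ≠ j) :
    (univ.filter fun r : Fin k => r ≠ j) =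
      insert q (univ.filter fun r : Fin k => r ≠ j ∧ r ≠ q) := by
  ext r
  simp only [mem_insert, mem_filter, mem_univ, true_and]
  constructor
  · intro h1
    by_cases h2 : r = q
    · exact Or.inl h2
    · exact Or.inr ⟨h1, h2⟩
  · rintro (h1 | h1)
    · rw [h1]
      exact hq
    · exact h1.1

theorem insert_j (j : Fin k) :
    (univ : Finset (Fin k)) = insert j (univ.filter fun r : Fin k => r ≠ j) := by
  ext r
  simp only [mem_insert, mem_filter, mem_univ, true_and, true_iff]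
  exact eq_or_ne r j

/-- the value at the node -/
theorem Cof_eq (h4 : S_EH1) (h7 : S_XF) {j q : Fin k} (hq : q ≠ j) {z : E k} (hz : IsZ q z)
    {Y : Fin k → E k} (hY : ∀ r, IsZ r (Y r)) (N : ℕ) :
    Cof j q (N + 1) (PP (univ.filter fun r : Fin k => r ≠ j)
      (kap (univ.filter fun r : Fin k => r ≠ j) Y N) (fun r => uu (xx r)) Y) z⁻¹ = 0 ∨
    Cof j q (N + 1) (PP (univ.filter fun r : Fin k => r ≠ j)
      (kap (univ.filter fun r : Fin k => r ≠ j) Y N) (fun r => uu (xx r)) Y) z⁻¹ =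
      kap (univ.filter fun r : Fin k => r ≠ j ∧ r ≠ q) Y N *
        ((-1) ^ (N + 1) * (-1) ^ (univ.filter fun r : Fin k => r ≠ j ∧ r ≠ q).card) *
      ((1 - 2 * xx q) * ((1 + z ^ 3) * (1 + z) * (2 - z)) *
        ∏ r ∈ univ.filter (fun r : Fin k => r ≠ j ∧ r ≠ q),
          ((uu (xx q) - uu (xx r)) * ((1 - z) + z ^ 2 * uu (xx r)))) *
      (z ^ N * (z⁻¹) ^ (4 + 2 * (univ.filter fun r : Fin k => r ≠ j ∧ r ≠ q).card)) *
      ((1 - z) ^ (2 * N))⁻¹ := by
  have hz0 := z_ne h7 hz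
  have hz1 := z_ne1 h7 hz
  have haz : z⁻¹ * z = 1 := inv_mul_cancel₀ hz0
  have hYz : Y q = z ∨ Y q = 1 - z := by
    rcases hY q with h | h <;> rcases hz with h' | h' <;> rw [h, h']
    · exact Or.inl rfl
    · right
      ring
    · right
      rfl
    · exact Or.inl rfl
  set S := univ.filter (fun r : Fin k => r ≠ j ∧ r ≠ q) with hS
  have hqS : q ∉ S := by
    rw [hS]
    simp
  rw [insert_q hq, ← hS]
  set a := z⁻¹ with ha
  unfold Cof
  rw [← hS, PP_eval]
  have hA0 : AA (insert q S) Y (1 - a) = 0 := by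
    unfold AA
    rw [prod_insert hqS]
    have e : gr (1 - a) (Y q) = 0 := by
      unfold gr
      rcases hYz with h | h
      · have e1 : 1 - (1 - (1 - a)) * Y q = 0 := by
          rw [h]
          linear_combination -haz
        rw [e1, zero_mul, zero_mul]
      · have e1 : 1 - (1 - (1 - a)) * (1 - Y q) = 0 := by
          rw [h]
          linear_combination -haz
        rw [e1, mul_zero]
    rw [e]
    ring
  rw [hA0, add_zero]
  rcases hYz with hYq | hYq
  · right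
    have hne : ∀ r ∈ S, q ≠ r := fun r hr h => hqS (h ▸ hr)
    have hamem : ∀ r ∈ S, a ∈ LF h7 r := fun r hr => inv_mem (hz.mem h7 (hne r hr))
    have ha0 : a ≠ 0 := inv_ne_zero hz0
    have ha1 : 1 - a ≠ 0 := by
      intro h
      apply hz1
      have : z * (1 - a) = z - 1 := by
        rw [mul_sub, mul_one, mul_comm z a, haz]
      rw [h, mul_zero] at this
      linear_combination this
    have hn := node (xx (k := k)) Y S q hqS z a N haz hYq hz.uu.symm (fun r _ => (hY r).uu) hz0 hz1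
      (z_ne2 h7 hz) (z_ne4 h4 h7 hz) (z_ne3 h7 hz)
      (fun r hr => gr_ne h7 (hamem r hr) ha0 ha1 (hY r))
      (fun r hr => one_ne h7 (hamem r hr) ha0 (hY r))
      (fun r hr => one_ne h7 (hz.mem h7 (hne r hr)) hz0 (hY r))
    unfold kap
    exact hn
  · left
    have e : gr a (Y q) = 0 := by
      unfold gr
      have e1 : 1 - a * (1 - Y q) = 0 := by
        rw [hYq]
        linear_combination -haz
      rw [e1, mul_zero, zero_mul]
    have hA1 : AA (insert q S) Y a = 0 := by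
      unfold AA
      rw [prod_insert hqS, e]
      ring
    rw [hA1, mul_zero, zero_div]

theorem Cof_res (h4 : S_EH1) (h5 : S_EH2) (h6 : S_EH3) (h7 : S_XF) {n : ℕ} (hn : k ≤ n)
    {j q : Fin k} (hq : q ≠ j) {z : E k} (hz : IsZ q z) {Y : Fin k → E k}
    (hY : ∀ r, IsZ r (Y r)) :
    res ((xx j)⁻¹ * Cof j q (n + k + 1) (PP (univ.filter fun r : Fin k => r ≠ j)
      (kap (univ.filter fun r : Fin k => r ≠ j) Y (n + k)) (fun r => uu (xx r)) Y) z⁻¹) = 0 := by
  rcases Cof_eq h4 h7 hq hz hY (n + k) with h | h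
  · rw [h, mul_zero]
    rfl
  · rw [h]
    have hcard := card_two hq
    set S := univ.filter (fun r : Fin k => r ≠ j ∧ r ≠ q) with hS
    have hqS : q ∉ S := by
      rw [hS]
      simp
    have hne : ∀ r ∈ S, r ≠ q := fun r hr h => hqS (h ▸ hr)
    have hz0 := z_ne h7 hz
    have e1 : z ^ (n + k) * z⁻¹ ^ (4 + 2 * S.card) = z ^ (n - k) := by
      have e2 : n + k = (n - k) + (4 + 2 * S.card) := by omega
      rw [e2, pow_add, mul_assoc, ← mul_pow, mul_inv_cancel₀ hz0, one_pow, mul_one]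
    rw [e1, ← inv_pow]
    set c : E k := (xx j)⁻¹ * (kap S Y (n + k) * ((-1) ^ (n + k + 1) * (-1) ^ S.card)) with hc
    have hcm : c ∈ LF h7 q := by
      rw [hc]
      have h1 : (-1 : E k) ∈ LF h7 q := neg_mem (one_mem _)
      exact mul_mem (inv_mem (xx_mem h7 hq.symm)) (mul_mem (kap_mem h7 S _ hqS hY)
        (mul_mem (pow_mem h1 _) (pow_mem h1 _)))
    have e3 : (xx j)⁻¹ * (kap S Y (n + k) * ((-1) ^ (n + k + 1) * (-1) ^ S.card) *
      ((1 - 2 * xx q) * ((1 + z ^ 3) * (1 + z) * (2 - z)) *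
        ∏ r ∈ S, ((uu (xx q) - uu (xx r)) * ((1 - z) + z ^ 2 * uu (xx r)))) *
      z ^ (n - k) * ((1 - z)⁻¹ ^ (2 * (n + k)))) = c * (((1 - 2 * xx q) *
        ((1 + z ^ 3) * (1 + z) * (2 - z)) *
        ∏ r ∈ S, ((uu (xx q) - uu (xx r)) * ((1 - z) + z ^ 2 * uu (xx r)))) *
      z ^ (n - k) * ((1 - z)⁻¹ ^ (2 * (n + k)))) := by
      rw [hc]
      ring
    rw [e3]
    have g1 : Ge q 0 (1 : E k) := ((mem_LF h7 q 1).1 (one_mem _)).1
    have l1 : Le q 0 (1 : E k) := ((mem_LF h7 q 1).1 (one_mem _)).2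
    have g2 : Ge q 0 (2 : E k) := ((mem_LF h7 q 2).1 (ofNat_mem _ 2)).1
    have l2 : Le q 0 (2 : E k) := ((mem_LF h7 q 2).1 (ofNat_mem _ 2)).2
    have gx : Ge q 0 (xx q) := (h4 k q 1 0 (xx q) (xx q)).2.2.2.2.2.2.1 (h7 k q).2.1 zero_le_one
    have lx : Le q 1 (xx q) := (h7 k q).2.2.1
    have l1' : Le q 1 (1 : E k) := Le.mono h4 l1 zero_le_one
    rcases hz with hz | hz
    · refine (h6 k).2.2.1 q _ ?_
      have gz : Ge q 0 z := by rw [hz]; exact gx
      have gu : Ge q 0 (uu (xx q)) := by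
        have := Ge.mul h4 gx (Ge.sub h4 g1 gx)
        rwa [add_zero] at this
      have gi : Ge q 0 ((1 - z)⁻¹) := by
        rw [hz]
        exact ((h7 k q).2.2.2.2.1 q).2.2
      have gm : ∀ {f g : E k}, Ge q 0 f → Ge q 0 g → Ge q 0 (f * g) := by
        intro f g hf hg
        have := Ge.mul h4 hf hg
        rwa [add_zero] at this
      refine gm ((mem_LF h7 q c).1 hcm).1 (gm (gm (gm (gm (Ge.sub h4 g1 (gm g2 gx)) (gm (gm
        (Ge.add h4 g1 (Ge.pow h4 h7 gz 3)) (Ge.add h4 g1 gz)) (Ge.sub h4 g2 gz)))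
        (Ge.prod h4 h7 S fun r hr => gm (Ge.sub h4 gu ?_)
          (Ge.add h4 (Ge.sub h4 g1 gz) (gm (Ge.pow h4 h7 gz 2) ?_))))
        (Ge.pow h4 h7 gz _)) (Ge.pow h4 h7 gi _))
      · exact ((mem_LF h7 q _).1 (uu_mem h7 (hne r hr))).1
      · exact ((mem_LF h7 q _).1 (uu_mem h7 (hne r hr))).1
    · refine (h6 k).2.2.2 q _ ?_
      have lz : Le q 1 z := by
        rw [hz]
        exact Le.sub h4 l1' lx
      have li : Le q (-1) ((1 - z)⁻¹) := by
        have e4 : 1 - z = xx q := by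
          rw [hz]
          ring
        rw [e4]
        have h8 := (h5 k (xx q) _ (h7 k q).1).2.2 q
        rw [ofLex_toLex, Pi.single_eq_same] at h8
        exact h8 lx
      have m1 : Le q 1 (1 - 2 * xx q) := by
        refine Le.sub h4 l1' ?_
        have := Le.mul h4 l2 lx
        rwa [zero_add] at this
      have m2 : Le q 3 (1 + z ^ 3) := by
        refine Le.add h4 (Le.mono h4 l1 (by norm_num)) ?_
        exact Le.mono h4 (Le.pow h4 h7 lz 3) (by norm_num)
      have m3 : Le q 1 (1 + z) := Le.add h4 l1' lz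
      have m4 : Le q 1 (2 - z) := Le.sub h4 (Le.mono h4 l2 zero_le_one) lz
      have m5 : Le q (4 * S.card) (∏ r ∈ S, ((uu (xx q) - uu (xx r)) *
          ((1 - z) + z ^ 2 * uu (xx r)))) := by
        refine Le.prod h4 h7 S fun r hr => ?_
        have hr' := ((mem_LF h7 q _).1 (uu_mem h7 (hne r hr))).2
        have a1 : Le q 2 (uu (xx q)) := Le.mul h4 lx (Le.sub h4 l1' lx)
        have a2 : Le q 2 (uu (xx q) - uu (xx r)) := Le.sub h4 a1 (Le.mono h4 hr' (by norm_num))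
        have a3 : Le q 2 (z ^ 2 * uu (xx r)) :=
          Le.mono h4 (Le.mul h4 (Le.pow h4 h7 lz 2) hr') (by norm_num)
        have a4 : Le q 2 ((1 - z) + z ^ 2 * uu (xx r)) :=
          Le.add h4 (Le.mono h4 (Le.sub h4 l1' lz) (by norm_num)) a3
        exact Le.mul h4 a2 a4
      have m6 := Le.pow h4 h7 lz (n - k)
      have m7 := Le.pow h4 h7 li (2 * (n + k))
      refine Le.mono h4 (Le.mul h4 ((mem_LF h7 q c).1 hcm).2 (Le.mul h4 (Le.mul h4 (Le.mul h4
        (Le.mul h4 m1 (Le.mul h4 (Le.mul h4 m2 m3) m4)) m5) m6) m7)) ?_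
      have e5 : ((n - k : ℕ) : ℤ) = (n : ℤ) - k := by
        push_cast [hn]
        ring
      have e6 : (S.card : ℤ) + 2 = k := by exact_mod_cast hcard
      rw [e5]
      push_cast
      have e7 : (k : ℤ) ≤ n := by exact_mod_cast hn
      linarith

/-- the case where `x_j` is not flipped -/
theorem dm_aux (h1 : S_BAR) (h4 : S_EH1) (h5 : S_EH2) (h6 : S_EH3) (h7 : S_XF) (n : ℕ)
    (hn : k ≤ n) (ε : Fin k → Bool) (j : Fin k) (hε : ε j = false) :
    res (db (xx (k := k)) * gg (flp ε (xx (k := k))) / (∏ i, uu (xx (k := k) i)) ^ (n + k))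
    = - res (db (xx (k := k)) * gg (flp (Function.update ε j true) (xx (k := k))) /
      (∏ i, uu (xx (k := k) i)) ^ (n + k)) := by
  set Y : Fin k → E k := flp ε xx with hYdef
  set Y' : Fin k → E k := flp (Function.update ε j true) xx with hY'def
  have hY : ∀ r, IsZ r (Y r) := by
    intro r
    rw [hYdef]
    unfold flp
    split_ifs
    · exact Or.inr rfl
    · exact Or.inl rfl
  have hYj : Y j = xx j := by
    rw [hYdef]
    unfold flp
    rw [hε]
    rfl
  have hY'j : Y' j = 1 - xx j := by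
    rw [hY'def]
    unfold flp
    rw [Function.update_self]
    rfl
  set S := univ.filter (fun r : Fin k => r ≠ j) with hS
  have hjS : j ∉ S := by
    rw [hS]
    simp
  have hne : ∀ r ∈ S, r ≠ j := fun r hr h => hjS (h ▸ hr)
  have hY' : ∀ r ∈ S, Y' r = Y r := by
    intro r hr
    rw [hY'def, hYdef]
    unfold flp
    rw [Function.update_of_ne (hne r hr)]
  have hcardS : S.card + 1 = k := by
    have h := congrArg Finset.card (insert_j j)
    rw [← hS, card_insert_of_notMem hjS, card_univ, Fintype.card_fin] at h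
    exact h.symm
  have hbar := h1 k j (n + k + 1) (PP S (kap S Y (n + k)) (fun r => uu (xx r)) Y) (by omega)
    (fun i => PP_coeff (LF h7 j) S (kap_mem h7 S _ hjS hY) (fun r hr => uu_mem h7 (hne r hr))
      (fun r hr => (hY r).mem h7 (hne r hr)) i)
    (PP_comp _ _ _ _)
    (by
      have := PP_deg S (kap S Y (n + k)) (fun r => uu (xx (k := k) r)) Y
      omega)
    (fun q hq => ⟨Cof_res h4 h5 h6 h7 hn hq (Or.inl rfl) hY,
      Cof_res h4 h5 h6 h7 hn hq (Or.inr rfl) hY⟩)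
  rw [← hS, PP_eval] at hbar
  have hT0 : xx j ≠ (0 : E k) := z_ne h7 (Or.inl rfl : IsZ j (xx j))
  have hT1 : (1 - xx j : E k) ≠ 0 := z_ne1 h7 (Or.inl rfl : IsZ j (xx j))
  have hTm : ∀ r ∈ S, xx j ∈ LF h7 r := fun r hr => xx_mem h7 (hne r hr).symm
  have hTm' : ∀ r ∈ S, (1 - xx j) ∈ LF h7 r := fun r hr =>
    sub_mem (one_mem _) (xx_mem h7 (hne r hr).symm)
  have q1 := AA_div S (xx (k := k)) Y (xx j) hT0
    (fun r hr => gr_ne h7 (hTm r hr) hT0 hT1 (hY r)) (fun r _ => (hY r).uu)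
  have q2 := AA_div S (xx (k := k)) Y (1 - xx j) hT1
    (fun r hr => gr_ne h7 (hTm' r hr) hT1 (by
      have e : (1 : E k) - (1 - xx j) = xx j := by ring
      rw [e]
      exact hT0) (hY r)) (fun r _ => (hY r).uu)
  have hzj : IsZ j (1 - xx j) := Or.inr rfl
  have huu : uu (1 - xx j : E k) = uu (xx j) := hzj.uu
  rw [huu] at q2
  have d1 : db (xx (k := k)) = sgn (E k) S j * ((1 - 2 * xx j) *
      ∏ r ∈ S, (uu (xx j) - uu (xx r))) * D0 S xx := by
    rw [db_eq, insert_j j, ← hS, D0_insert hjS]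
  have d2' : gg Y = sgn (E k) S j * ((1 - xx j)⁻¹ *
      ∏ r ∈ S, ((Y r - xx j) * (1 - xx j * Y r)⁻¹)) * G0 S Y := by
    rw [gg_eq, insert_j j, ← hS, G0_insert hjS, hYj]
  have d3 : gg Y' = sgn (E k) S j * ((1 - (1 - xx j))⁻¹ *
      ∏ r ∈ S, ((Y r - (1 - xx j)) * (1 - (1 - xx j) * Y r)⁻¹)) * G0 S Y := by
    rw [gg_eq, insert_j j, ← hS, G0_insert hjS, hY'j, G0_congr S hY']
    congr 3
    exact prod_congr rfl fun r hr => by rw [hY' r hr]
  have d4 : (∏ i, uu (xx (k := k) i)) ^ (n + k) = uu (xx j) ^ (n + k) *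
      ∏ r ∈ S, uu (xx (k := k) r) ^ (n + k) := by
    rw [insert_j j, ← hS, prod_insert hjS, mul_pow, prod_pow]
  have hss := sgn_sq (K := E k) S j
  have key : db (xx (k := k)) * gg Y / (∏ i, uu (xx (k := k) i)) ^ (n + k) +
      db (xx (k := k)) * gg Y' / (∏ i, uu (xx (k := k) i)) ^ (n + k) =
      kap S Y (n + k) * ((1 - 2 * xx j) * ∏ r ∈ S, (uu (xx j) - uu (xx r))) *
        (AA S Y (xx j) + AA S Y (1 - xx j)) /
      (uu (xx j) ^ (n + k + 1) * ∏ r ∈ S, d2 (uu (xx j)) (uu (xx r))) := by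
    have e1 : kap S Y (n + k) * ((1 - 2 * xx j) * ∏ r ∈ S, (uu (xx j) - uu (xx r))) *
        (AA S Y (xx j) + AA S Y (1 - xx j)) /
      (uu (xx j) ^ (n + k + 1) * ∏ r ∈ S, d2 (uu (xx j)) (uu (xx r))) =
      kap S Y (n + k) * ((1 - 2 * xx j) * ∏ r ∈ S, (uu (xx j) - uu (xx r))) *
        (uu (xx j) ^ (n + k))⁻¹ *
        (AA S Y (xx j) / (uu (xx j) * ∏ r ∈ S, d2 (uu (xx j)) (uu (xx r))) +
         AA S Y (1 - xx j) / (uu (xx j) * ∏ r ∈ S, d2 (uu (xx j)) (uu (xx r)))) := by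
      rw [pow_succ (uu (xx j))]
      simp only [div_eq_mul_inv, mul_inv]
      ring
    rw [e1, q1, q2, d1, d2', d3, d4]
    unfold kap
    set A1 := ∏ r ∈ S, ((Y r - xx j) * (1 - xx j * Y r)⁻¹)
    set A2 := ∏ r ∈ S, ((Y r - (1 - xx j)) * (1 - (1 - xx j) * Y r)⁻¹)
    set A3 := ∏ r ∈ S, (uu (xx j) - uu (xx r))
    set A4 := ∏ r ∈ S, uu (xx (k := k) r) ^ (n + k)
    set s := sgn (E k) S j
    calc s * ((1 - 2 * xx j) * A3) * D0 S xx * (s * ((1 - xx j)⁻¹ * A1) * G0 S Y) /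
          (uu (xx j) ^ (n + k) * A4) +
        s * ((1 - 2 * xx j) * A3) * D0 S xx * (s * ((1 - (1 - xx j))⁻¹ * A2) * G0 S Y) /
          (uu (xx j) ^ (n + k) * A4)
        = (s * s) * (A4⁻¹ * D0 S xx * G0 S Y * ((1 - 2 * xx j) * A3) *
          (uu (xx j) ^ (n + k))⁻¹ * ((1 - xx j)⁻¹ * A1 + (1 - (1 - xx j))⁻¹ * A2)) := by
          simp only [div_eq_mul_inv, mul_inv]
          ring
      _ = _ := by
          rw [hss, one_mul]
  rw [← key, (h6 k).1] at hbar
  exact eq_neg_of_add_eq_zero_left hbar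

end ek

theorem dm (h1 : S_BAR) (_h2 : S_FLIP) (_h3 : S_EALT) (h4 : S_EH1) (h5 : S_EH2) (h6 : S_EH3)
    (h7 : S_XF) : Pool.Agent.H174.GM.S_DM := by
  intro k n hn ε j
  cases hε : ε j with
  | false => exact dm_aux h1 h4 h5 h6 h7 n hn ε j hε
  | true =>
    have h := dm_aux h1 h4 h5 h6 h7 n hn (Function.update ε j false) j (Function.update_self _ _ _)
    rw [Function.update_idem] at h
    have e : Function.update ε j true = ε := by
      rw [← hε]
      exact Function.update_eq_self j ε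
    rw [e] at h
    rw [Bool.not_true, h, neg_neg]

end Pool.Agent.H860.GM174.DM
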